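import Pool.Agent.N879.GD.Stm

set_option autoImplicit false

/-!
Project GDZ (helper460): several dilations, from one dilation and the fourth moment.
-/

namespace Pool.Agent.U460.GZ

open Complex Filter Topology MeasureTheory Set
open scoped ENNReal
open Pool.Agent.Y969.GP (ff)
open Pool.Agent.N879.GD

namespace DILK

noncomputable section

lemma cont_ff : Continuous ff := by
  have h : Continuous fun u : ℝ => riemannZeta (1 / 2 + I * u) := by
    rw [continuous_iff_continuousAt]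
    intro u
    have h1 : (1 / 2 + I * u : ℂ) ≠ 1 := by
      intro h
      have h2 := congrArg re h
      have h3 : (1 / 2 + I * u : ℂ).re = 1 / 2 := by simp
      rw [h3, one_re] at h2
      norm_num at h2
    have h2 : ContinuousAt (fun u : ℝ => (1 / 2 + I * u : ℂ)) u := by fun_prop
    exact ContinuousAt.comp (f := fun u : ℝ => (1 / 2 + I * u : ℂ)) (g := riemannZeta)
      (differentiableAt_riemannZeta h1).continuousAt h2
  exact (h.norm).pow 2

lemma meas_D0 : Measurable D0 := by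
  unfold D0
  fun_prop

lemma ff_nonneg (u : ℝ) : 0 ≤ ff u := by
  unfold Pool.Agent.Y969.GP.ff
  positivity

lemma cont_D0 {s : Set ℝ} {x : ℝ} (hx : 0 < x) (hs : ∀ t ∈ s, 0 < t) :
    ContinuousOn (fun t => D0 (x * t)) s := by
  unfold D0
  refine ContinuousOn.add (ContinuousOn.log (by fun_prop) fun t ht => ?_) continuousOn_const
  have := hs t ht
  positivity

lemma dif_cons {k : ℕ} (x : ℝ) (y : Fin k → ℝ) (t : ℝ) :
    dif (Fin.cons x y : Fin (k + 1) → ℝ) t =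
      ff (x * t) * dif y t + (∏ j, D0 (y j * t)) * (ff (x * t) - D0 (x * t)) := by
  unfold dif
  rw [Fin.prod_univ_succ, Fin.prod_univ_succ]
  simp only [Fin.cons_zero, Fin.cons_succ]
  ring

lemma meas_dif' {k : ℕ} {α : Type} [MeasurableSpace α] (f : α → Fin k → ℝ) (g : α → ℝ)
    (hf : Measurable f) (hg : Measurable g) : Measurable fun q => dif (f q) (g q) := by
  unfold dif
  refine Measurable.sub ?_ ?_
  · refine Finset.measurable_prod _ fun j _ => ?_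
    exact cont_ff.measurable.comp (((measurable_pi_apply j).comp hf).mul hg)
  · refine Finset.measurable_prod _ fun j _ => ?_
    exact meas_D0.comp (((measurable_pi_apply j).comp hf).mul hg)

lemma cont_dif {k : ℕ} {s : Set ℝ} {y : Fin k → ℝ} (hy : ∀ j, 0 < y j) (hs : ∀ t ∈ s, 0 < t) :
    ContinuousOn (fun t => dif y t) s := by
  unfold dif
  refine ContinuousOn.sub ?_ ?_
  · exact continuousOn_finsetProd _ fun j _ => (cont_ff.comp (by fun_prop)).continuousOn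
  · exact continuousOn_finsetProd _ fun j _ => cont_D0 (hy j) hs

/-- integrability of the product of a square integrable function and a continuous function -/
lemma integ {a b : ℝ} {F : ℝ → ℂ} (hF : Measurable F) (h : ∫⁻ t in Icc a b, ‖F t‖ₑ ^ 2 ≠ ⊤)
    {g : ℝ → ℝ} (hg : ContinuousOn g (Icc a b)) :
    IntegrableOn (fun t => F t * ((g t : ℝ) : ℂ)) (Icc a b) := by
  have h1 : MemLp F 2 (volume.restrict (Icc a b)) := by
    refine ⟨hF.aestronglyMeasurable, ?_⟩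
    rw [eLpNorm_lt_top_iff_lintegral_rpow_enorm_lt_top (by norm_num) (by norm_num)]
    refine lt_of_le_of_lt (le_of_eq ?_) (lt_top_iff_ne_top.2 h)
    congr 1
    ext t
    norm_num
  have h2 : IntegrableOn F (Icc a b) := h1.integrable (by norm_num)
  exact h2.mul_continuousOn (continuous_ofReal.comp_continuousOn hg) isCompact_Icc

/-- the box as a product -/
lemma box {k : ℕ} (a b : ℝ) (f : (Fin (k + 1) → ℝ) → ℝ≥0∞) :
    ∫⁻ l in Icc (fun _ : Fin (k + 1) => a) (fun _ => b), f l =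
      ∫⁻ p, f (Fin.cons p.1 p.2) ∂((volume.restrict (Icc a b)).prod
        (volume.restrict (Icc (fun _ : Fin k => a) (fun _ => b)))) := by
  have h1 := (volume_preserving_piFinSuccAbove (fun _ : Fin (k + 1) => ℝ) 0).symm
  have h2 : ((MeasurableEquiv.piFinSuccAbove (fun _ : Fin (k + 1) => ℝ) 0).symm) ⁻¹'
      (Icc (fun _ : Fin (k + 1) => a) (fun _ => b)) =
      (Icc a b) ×ˢ (Icc (fun _ : Fin k => a) (fun _ => b)) := by
    ext p
    simp only [MeasurableEquiv.piFinSuccAbove, MeasurableEquiv.symm_mk, MeasurableEquiv.coe_mk,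
      mem_preimage, mem_Icc, mem_prod, Pi.le_def, Fin.forall_fin_succ]
    simp
    tauto
  rw [Measure.prod_restrict, ← h2, ← Measure.volume_eq_prod]
  rw [← h1.setLIntegral_comp_preimage_emb (MeasurableEquiv.measurableEmbedding _)]
  refine lintegral_congr fun p => ?_
  congr 1
  exact Fin.insertNth_zero (α := fun _ : Fin (k + 1) => ℝ) p.1 p.2

/-- the mean square of `ff` over the dilation -/
lemma ffms (h : S_M4) {ε A : ℝ} (hε : 0 < ε) (hA : 1 ≤ A) : ∃ C : ℝ, 0 < C ∧ ∀ T t : ℝ, 1 ≤ T →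
    t ∈ Icc T (2 * T) → ∫⁻ x in Icc A⁻¹ A, ‖ff (x * t)‖ₑ ^ 2 ≤ ENNReal.ofReal (C * T ^ ε) := by
  obtain ⟨C, hC, h1⟩ := h ε hε
  refine ⟨C * A ^ (1 + ε) * 2 ^ ε, by positivity, fun T t hT ht => ?_⟩
  have ht0 : 0 < t := by linarith [ht.1]
  have hA0 : 0 < A := by linarith
  have hAi : A⁻¹ ≤ A := (inv_le_one_of_one_le₀ hA).trans hA
  have hc : Continuous fun x => ff (x * t) ^ 2 := (cont_ff.comp (by fun_prop)).pow 2
  have e1 : ∫⁻ x in Icc A⁻¹ A, ‖ff (x * t)‖ₑ ^ 2 =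
      ENNReal.ofReal (∫ x in Icc A⁻¹ A, ff (x * t) ^ 2) := by
    rw [ofReal_integral_eq_lintegral_ofReal (hc.continuousOn.integrableOn_compact isCompact_Icc)
      (Eventually.of_forall fun x => sq_nonneg _)]
    refine lintegral_congr fun x => ?_
    rw [Real.enorm_eq_ofReal (ff_nonneg _), ENNReal.ofReal_pow (ff_nonneg _)]
  rw [e1]
  refine ENNReal.ofReal_le_ofReal ?_
  rw [integral_Icc_eq_integral_Ioc, ← intervalIntegral.integral_of_le hAi,
    intervalIntegral.integral_comp_mul_right (fun u => ff u ^ 2) ht0.ne']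
  have h2 : ∫ u in (A⁻¹ * t)..(A * t), ff u ^ 2 ≤ ∫ u in (0 : ℝ)..(A * t), ff u ^ 2 := by
    have hc2 : Continuous fun x => ff x ^ 2 := cont_ff.pow 2
    refine intervalIntegral.integral_mono_interval (by positivity) ?_ le_rfl
      (Eventually.of_forall fun x => sq_nonneg _) (hc2.intervalIntegrable _ _)
    exact mul_le_mul_of_nonneg_right hAi ht0.le
  have h3 := h1 (A * t) (by nlinarith [ht.1])
  have h4 : (A * t) ^ (1 + ε) = A ^ (1 + ε) * (t * t ^ ε) := by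
    rw [Real.mul_rpow hA0.le ht0.le, Real.rpow_add ht0, Real.rpow_one]
  have h5 : t ^ ε ≤ 2 ^ ε * T ^ ε := by
    rw [← Real.mul_rpow (by norm_num) (by linarith)]
    exact Real.rpow_le_rpow ht0.le ht.2 hε.le
  rw [smul_eq_mul]
  calc t⁻¹ * ∫ u in (A⁻¹ * t)..(A * t), ff u ^ 2 ≤ t⁻¹ * (C * (A * t) ^ (1 + ε)) := by
        gcongr
        exact h2.trans h3
    _ = C * A ^ (1 + ε) * t ^ ε := by
        rw [h4]
        field_simp
    _ ≤ C * A ^ (1 + ε) * (2 ^ ε * T ^ ε) := by gcongr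
    _ = _ := by ring

/-- the main terms are small -/
lemma d0b {ε A : ℝ} (hε : 0 < ε) (hA : 1 ≤ A) : ∃ C : ℝ, 0 < C ∧ ∀ T t y : ℝ, 1 ≤ T →
    t ∈ Icc T (2 * T) → y ∈ Icc A⁻¹ A → |D0 (y * t)| ≤ C * T ^ ε := by
  have hA0 : 0 < A := by linarith
  refine ⟨Real.log A + Real.log 2 + Real.log (2 * Real.pi) + 2 + ε⁻¹, ?_, fun T t y hT ht hy => ?_⟩
  · have h1 := Real.log_nonneg hA
    have h2 : 0 < Real.log 2 := Real.log_pos (by norm_num)
    have h3 : 0 < Real.log (2 * Real.pi) := Real.log_pos (by linarith [Real.pi_gt_three])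
    positivity
  · have ht0 : 0 < t := by linarith [ht.1]
    have hy0 : 0 < y := lt_of_lt_of_le (by positivity) hy.1
    have hT0 : 0 < T := by linarith
    have h1 := Real.log_nonneg hA
    have h2 : 0 < Real.log 2 := Real.log_pos (by norm_num)
    have h3 : 0 < Real.log (2 * Real.pi) := Real.log_pos (by linarith [Real.pi_gt_three])
    have h4 : |Real.log y| ≤ Real.log A := by
      rw [abs_le]
      constructor
      · rw [← Real.log_inv]
        exact Real.log_le_log (by positivity) hy.1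
      · exact Real.log_le_log hy0 hy.2
    have h5 : 0 ≤ Real.log t := Real.log_nonneg (by linarith [ht.1])
    have h6 : Real.log t ≤ Real.log 2 + Real.log T := by
      rw [← Real.log_mul (by norm_num) hT0.ne']
      exact Real.log_le_log ht0 ht.2
    have h7 : Real.log T ≤ ε⁻¹ * T ^ ε := by
      have := Real.log_le_rpow_div hT0.le hε
      rwa [div_eq_inv_mul] at this
    have h8 : 1 ≤ T ^ ε := Real.one_le_rpow hT hε.le
    have h9 : |Real.eulerMascheroniConstant| ≤ 1 := by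
      rw [abs_le]
      constructor
      · linarith [Real.one_half_lt_eulerMascheroniConstant]
      · linarith [Real.eulerMascheroniConstant_lt_two_thirds]
    have h10 : D0 (y * t) = Real.log y + Real.log t - Real.log (2 * Real.pi) +
        2 * Real.eulerMascheroniConstant := by
      unfold D0
      rw [Real.log_div (by positivity) (by positivity), Real.log_mul hy0.ne' ht0.ne']
    have h11 : |D0 (y * t)| ≤ Real.log A + (Real.log 2 + ε⁻¹ * T ^ ε) + Real.log (2 * Real.pi) + 2 := by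
      rw [h10, abs_le]
      have h12 := abs_le.1 h4
      have h13 := abs_le.1 h9
      constructor <;> linarith [h12.1, h12.2, h13.1, h13.2]
    refine h11.trans ?_
    have h14 : (Real.log A + Real.log 2 + Real.log (2 * Real.pi) + 2) * 1 ≤
        (Real.log A + Real.log 2 + Real.log (2 * Real.pi) + 2) * T ^ ε :=
      mul_le_mul_of_nonneg_left h8 (by positivity)
    linarith

lemma d0k (k : ℕ) {ε A : ℝ} (hε : 0 < ε) (hA : 1 ≤ A) : ∃ C : ℝ, 0 < C ∧ ∀ (T t : ℝ) (y : Fin k → ℝ),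
    1 ≤ T → t ∈ Icc T (2 * T) → y ∈ Icc (fun _ : Fin k => A⁻¹) (fun _ => A) →
    |∏ j, D0 (y j * t)| ^ 2 ≤ C * T ^ ε := by
  have he : 0 < ε / (2 * (k + 1)) := by positivity
  obtain ⟨C, hC, h1⟩ := d0b he hA
  refine ⟨(C ^ k) ^ 2, by positivity, fun T t y hT ht hy => ?_⟩
  have hT0 : 0 < T := by linarith
  have h2 : |∏ j, D0 (y j * t)| ≤ (C * T ^ (ε / (2 * (k + 1)))) ^ k := by
    rw [Finset.abs_prod]
    calc ∏ j, |D0 (y j * t)| ≤ ∏ _j : Fin k, (C * T ^ (ε / (2 * (k + 1)))) := by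
          refine Finset.prod_le_prod (fun j _ => abs_nonneg _) fun j _ => ?_
          exact h1 T t (y j) hT ht ⟨hy.1 j, hy.2 j⟩
      _ = _ := by rw [Finset.prod_const, Finset.card_univ, Fintype.card_fin]
  calc |∏ j, D0 (y j * t)| ^ 2 ≤ ((C * T ^ (ε / (2 * (k + 1)))) ^ k) ^ 2 := by gcongr
    _ = (C ^ k) ^ 2 * T ^ (ε / (2 * (k + 1)) * (k * 2 : ℕ)) := by
        rw [Real.rpow_mul hT0.le, Real.rpow_natCast]
        ring
    _ ≤ (C ^ k) ^ 2 * T ^ ε := by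
        gcongr
        rw [div_mul_eq_mul_div, div_le_iff₀ (by positivity)]
        push_cast
        nlinarith

/-- the square of a sum -/
lemma sq_add_le (a b : ℂ) : ‖a + b‖ₑ ^ 2 ≤ 2 * ‖a‖ₑ ^ 2 + 2 * ‖b‖ₑ ^ 2 := by
  have h1 : ‖a + b‖ ^ 2 ≤ 2 * ‖a‖ ^ 2 + 2 * ‖b‖ ^ 2 := by
    have h2 := norm_add_le a b
    have h3 := norm_nonneg (a + b)
    nlinarith [sq_nonneg (‖a‖ - ‖b‖), norm_nonneg a, norm_nonneg b]
  rw [← ofReal_norm, ← ofReal_norm, ← ofReal_norm, ← ENNReal.ofReal_pow (norm_nonneg _),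
    ← ENNReal.ofReal_pow (norm_nonneg _), ← ENNReal.ofReal_pow (norm_nonneg _)]
  have h4 : (2 : ℝ≥0∞) = ENNReal.ofReal 2 := by norm_num
  rw [h4, ← ENNReal.ofReal_mul (by norm_num), ← ENNReal.ofReal_mul (by norm_num),
    ← ENNReal.ofReal_add (by positivity) (by positivity)]
  exact ENNReal.ofReal_le_ofReal h1

/-- one set of dilations -/
def Q (k : ℕ) (A δ : ℝ) : Prop := ∃ C T₀ : ℝ, 0 < C ∧ 1 ≤ T₀ ∧
  ∀ (T : ℝ) (F : ℝ → ℂ), T₀ ≤ T → Measurable F →
  ∫⁻ l in Icc (fun _ : Fin k => A⁻¹) (fun _ => A),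
      ‖∫ t in Icc T (2 * T), F t * ((dif l t : ℝ) : ℂ)‖ₑ ^ 2 ≤
    ENNReal.ofReal (C * T ^ (1 - 2 * δ)) * ∫⁻ t in Icc T (2 * T), ‖F t‖ₑ ^ 2

lemma zero (A δ : ℝ) : Q 0 A δ := by
  refine ⟨1, 1, one_pos, le_rfl, fun T F _ _ => ?_⟩
  have h : ∀ (l : Fin 0 → ℝ) (t : ℝ), dif l t = 0 := fun l t => by simp [dif]
  simp [h]

/-- the first part of the integral -/
def G1 {k : ℕ} (F : ℝ → ℂ) (T : ℝ) (p : ℝ × (Fin k → ℝ)) : ℂ :=
  ∫ t in Icc T (2 * T), (F t * ((ff (p.1 * t) : ℝ) : ℂ)) * ((dif p.2 t : ℝ) : ℂ)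

/-- the second part of the integral -/
def G2 {k : ℕ} (F : ℝ → ℂ) (T : ℝ) (p : ℝ × (Fin k → ℝ)) : ℂ :=
  ∫ t in Icc T (2 * T), (F t * ((∏ j, D0 (p.2 j * t) : ℝ) : ℂ)) *
      ((ff (p.1 * t) - D0 (p.1 * t) : ℝ) : ℂ)

lemma mG1 {k : ℕ} {F : ℝ → ℂ} (hF : Measurable F) (T : ℝ) : Measurable (G1 (k := k) F T) := by
  have mff : Measurable fun q : (ℝ × (Fin k → ℝ)) × ℝ => ff (q.1.1 * q.2) :=
    cont_ff.measurable.comp ((measurable_fst.comp measurable_fst).mul measurable_snd)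
  have mdif : Measurable fun q : (ℝ × (Fin k → ℝ)) × ℝ => dif q.1.2 q.2 :=
    meas_dif' (fun q : (ℝ × (Fin k → ℝ)) × ℝ => q.1.2) (fun q => q.2)
      (measurable_snd.comp measurable_fst) measurable_snd
  have mF : Measurable fun q : (ℝ × (Fin k → ℝ)) × ℝ => F q.2 := hF.comp measurable_snd
  have : StronglyMeasurable fun q : (ℝ × (Fin k → ℝ)) × ℝ =>
      (F q.2 * ((ff (q.1.1 * q.2) : ℝ) : ℂ)) * ((dif q.1.2 q.2 : ℝ) : ℂ) :=
    ((mF.mul (measurable_ofReal.comp mff)).mul (measurable_ofReal.comp mdif)).stronglyMeasurable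
  exact (this.integral_prod_right (ν := volume.restrict (Icc T (2 * T)))).measurable

lemma mG2 {k : ℕ} {F : ℝ → ℂ} (hF : Measurable F) (T : ℝ) : Measurable (G2 (k := k) F T) := by
  have mff : Measurable fun q : (ℝ × (Fin k → ℝ)) × ℝ => ff (q.1.1 * q.2) :=
    cont_ff.measurable.comp ((measurable_fst.comp measurable_fst).mul measurable_snd)
  have mD : Measurable fun q : (ℝ × (Fin k → ℝ)) × ℝ => D0 (q.1.1 * q.2) :=
    meas_D0.comp ((measurable_fst.comp measurable_fst).mul measurable_snd)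
  have mDk : Measurable fun q : (ℝ × (Fin k → ℝ)) × ℝ => ∏ j, D0 (q.1.2 j * q.2) :=
    Finset.measurable_prod _ fun j _ => meas_D0.comp
      (((measurable_pi_apply j).comp (measurable_snd.comp measurable_fst)).mul measurable_snd)
  have mF : Measurable fun q : (ℝ × (Fin k → ℝ)) × ℝ => F q.2 := hF.comp measurable_snd
  have : StronglyMeasurable fun q : (ℝ × (Fin k → ℝ)) × ℝ =>
      (F q.2 * ((∏ j, D0 (q.1.2 j * q.2) : ℝ) : ℂ)) *
        ((ff (q.1.1 * q.2) - D0 (q.1.1 * q.2) : ℝ) : ℂ) :=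
    ((mF.mul (measurable_ofReal.comp mDk)).mul
      (measurable_ofReal.comp (mff.sub mD))).stronglyMeasurable
  exact (this.integral_prod_right (ν := volume.restrict (Icc T (2 * T)))).measurable

lemma split {k : ℕ} {F : ℝ → ℂ} (hF : Measurable F) {T : ℝ} (hT : 0 < T)
    (hfin : ∫⁻ t in Icc T (2 * T), ‖F t‖ₑ ^ 2 ≠ ⊤) {x : ℝ} (hx : 0 < x) {y : Fin k → ℝ}
    (hy : ∀ j, 0 < y j) :
    ∫ t in Icc T (2 * T), F t * ((dif (Fin.cons x y : Fin (k + 1) → ℝ) t : ℝ) : ℂ) =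
      G1 F T (x, y) + G2 F T (x, y) := by
  have hpos : ∀ t ∈ Icc T (2 * T), 0 < t := fun t ht => by linarith [ht.1]
  unfold G1 G2
  rw [← integral_add]
  · refine integral_congr_ae (Eventually.of_forall fun t => ?_)
    simp only [dif_cons]
    push_cast
    ring
  · have := integ hF hfin (g := fun t => ff (x * t) * dif y t)
      ((cont_ff.comp (by fun_prop)).continuousOn.mul (cont_dif hy hpos))
    refine this.congr (Eventually.of_forall fun t => ?_)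
    simp only []
    push_cast
    ring
  · have := integ hF hfin (g := fun t => (∏ j, D0 (y j * t)) * (ff (x * t) - D0 (x * t)))
      ((continuousOn_finsetProd _ fun j _ => cont_D0 (hy j) hpos).mul
        ((cont_ff.comp (by fun_prop)).continuousOn.sub (cont_D0 hx hpos)))
    refine this.congr (Eventually.of_forall fun t => ?_)
    simp only []
    push_cast
    ring

lemma key {k : ℕ} {F : ℝ → ℂ} (hF : Measurable F) {T A : ℝ} (hT : 0 < T) (hA : 0 < A)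
    (hfin : ∫⁻ t in Icc T (2 * T), ‖F t‖ₑ ^ 2 ≠ ⊤) :
    ∀ᵐ p ∂((volume.restrict (Icc A⁻¹ A)).prod
        (volume.restrict (Icc (fun _ : Fin k => A⁻¹) (fun _ => A)))), ‖∫ t in Icc T (2 * T), F t *
      ((dif (Fin.cons p.1 p.2 : Fin (k + 1) → ℝ) t : ℝ) : ℂ)‖ₑ ^ 2 ≤
      2 * ‖G1 F T p‖ₑ ^ 2 + 2 * ‖G2 F T p‖ₑ ^ 2 := by
  rw [Measure.prod_restrict]
  filter_upwards [ae_restrict_mem (measurableSet_Icc.prod measurableSet_Icc)] with p hp
  have hx : 0 < p.1 := lt_of_lt_of_le (inv_pos.2 hA) hp.1.1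
  have hy : ∀ j, 0 < p.2 j := fun j => lt_of_lt_of_le (inv_pos.2 hA) (hp.2.1 j)
  rw [split hF hT hfin hx hy]
  exact sq_add_le _ _

/-- the first part -/
lemma b1 {k : ℕ} {A δ δ' C2 C3 : ℝ} (hC2 : 0 < C2) {F : ℝ → ℂ} (hF : Measurable F) {T : ℝ}
    (hT0 : 0 < T)
    (h2 : ∀ F : ℝ → ℂ, Measurable F →
      ∫⁻ l in Icc (fun _ : Fin k => A⁻¹) (fun _ => A),
        ‖∫ t in Icc T (2 * T), F t * ((dif l t : ℝ) : ℂ)‖ₑ ^ 2 ≤
      ENNReal.ofReal (C2 * T ^ (1 - 2 * ((δ + δ') / 2))) * ∫⁻ t in Icc T (2 * T), ‖F t‖ₑ ^ 2)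
    (h3 : ∀ t : ℝ, t ∈ Icc T (2 * T) →
      ∫⁻ x in Icc A⁻¹ A, ‖ff (x * t)‖ₑ ^ 2 ≤ ENNReal.ofReal (C3 * T ^ (δ - δ'))) :
    ∫⁻ p, ‖G1 F T p‖ₑ ^ 2 ∂((volume.restrict (Icc A⁻¹ A)).prod
        (volume.restrict (Icc (fun _ : Fin k => A⁻¹) (fun _ => A)))) ≤
      ENNReal.ofReal (C2 * C3 * T ^ (1 - 2 * δ')) * ∫⁻ t in Icc T (2 * T), ‖F t‖ₑ ^ 2 := by
  rw [lintegral_prod _ ((mG1 hF T).enorm.pow_const 2).aemeasurable]
  have s1 : ∀ x, ∫⁻ y in Icc (fun _ : Fin k => A⁻¹) (fun _ => A), ‖G1 F T (x, y)‖ₑ ^ 2 ≤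
      ENNReal.ofReal (C2 * T ^ (1 - 2 * ((δ + δ') / 2))) *
        ∫⁻ t in Icc T (2 * T), ‖F t‖ₑ ^ 2 * ‖ff (x * t)‖ₑ ^ 2 := fun x => by
    have := h2 (fun t => F t * ((ff (x * t) : ℝ) : ℂ))
      (hF.mul (measurable_ofReal.comp (cont_ff.measurable.comp (measurable_const_mul x))))
    refine this.trans (le_of_eq ?_)
    congr 1
    refine lintegral_congr fun t => ?_
    rw [enorm_mul, mul_pow, ← ofReal_norm (((ff (x * t) : ℝ) : ℂ)), norm_real, ofReal_norm]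
  have m2 : Measurable fun q : ℝ × ℝ => ‖F q.2‖ₑ ^ 2 * ‖ff (q.1 * q.2)‖ₑ ^ 2 :=
    ((hF.comp measurable_snd).enorm.pow_const 2).mul
      ((cont_ff.measurable.comp (measurable_fst.mul measurable_snd)).enorm.pow_const 2)
  calc ∫⁻ x in Icc A⁻¹ A, ∫⁻ y in Icc (fun _ : Fin k => A⁻¹) (fun _ => A), ‖G1 F T (x, y)‖ₑ ^ 2 ≤
      ∫⁻ x in Icc A⁻¹ A, ENNReal.ofReal (C2 * T ^ (1 - 2 * ((δ + δ') / 2))) *
        ∫⁻ t in Icc T (2 * T), ‖F t‖ₑ ^ 2 * ‖ff (x * t)‖ₑ ^ 2 := lintegral_mono s1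
    _ = ENNReal.ofReal (C2 * T ^ (1 - 2 * ((δ + δ') / 2))) *
        ∫⁻ x in Icc A⁻¹ A, ∫⁻ t in Icc T (2 * T), ‖F t‖ₑ ^ 2 * ‖ff (x * t)‖ₑ ^ 2 :=
      lintegral_const_mul' _ _ ENNReal.ofReal_ne_top
    _ = ENNReal.ofReal (C2 * T ^ (1 - 2 * ((δ + δ') / 2))) *
        ∫⁻ t in Icc T (2 * T), ∫⁻ x in Icc A⁻¹ A, ‖F t‖ₑ ^ 2 * ‖ff (x * t)‖ₑ ^ 2 := by
      rw [lintegral_lintegral_swap (f := fun x t => ‖F t‖ₑ ^ 2 * ‖ff (x * t)‖ₑ ^ 2)]
      exact m2.aemeasurable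
    _ ≤ ENNReal.ofReal (C2 * T ^ (1 - 2 * ((δ + δ') / 2))) *
        ∫⁻ t in Icc T (2 * T), ‖F t‖ₑ ^ 2 * ENNReal.ofReal (C3 * T ^ (δ - δ')) := by
      refine mul_le_mul' le_rfl ?_
      refine setLIntegral_mono' measurableSet_Icc fun t ht => ?_
      rw [lintegral_const_mul (f := fun x => ‖ff (x * t)‖ₑ ^ 2) _ ((cont_ff.measurable.comp
        (measurable_mul_const t)).enorm.pow_const 2)]
      exact mul_le_mul' le_rfl (h3 t ht)
    _ = ENNReal.ofReal (C2 * T ^ (1 - 2 * ((δ + δ') / 2))) *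
        ((∫⁻ t in Icc T (2 * T), ‖F t‖ₑ ^ 2) * ENNReal.ofReal (C3 * T ^ (δ - δ'))) := by
      rw [lintegral_mul_const' _ _ ENNReal.ofReal_ne_top]
    _ = _ := by
      rw [mul_comm (∫⁻ t in Icc T (2 * T), ‖F t‖ₑ ^ 2), ← mul_assoc,
        ← ENNReal.ofReal_mul (by positivity)]
      congr 2
      have : T ^ (1 - 2 * δ') = T ^ (1 - 2 * ((δ + δ') / 2)) * T ^ (δ - δ') := by
        rw [← Real.rpow_add hT0]
        congr 1
        ring
      rw [this]
      ring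

/-- the second part -/
lemma b2 {k : ℕ} {A δ δ' C1 C4 : ℝ} (hC1 : 0 < C1) (hC4 : 0 < C4) {F : ℝ → ℂ} (hF : Measurable F)
    {T : ℝ} (hT1 : 1 ≤ T) (hd : δ' < δ)
    (h1 : ∀ F : ℝ → ℂ, Measurable F →
      ∫⁻ l in Icc A⁻¹ A, ‖∫ t in Icc T (2 * T), F t * ((ff (l * t) - D0 (l * t) : ℝ) : ℂ)‖ₑ ^ 2 ≤
      ENNReal.ofReal (C1 * T ^ (1 - 2 * δ)) * ∫⁻ t in Icc T (2 * T), ‖F t‖ₑ ^ 2)
    (h4 : ∀ (t : ℝ) (y : Fin k → ℝ), t ∈ Icc T (2 * T) →
      y ∈ Icc (fun _ : Fin k => A⁻¹) (fun _ => A) → |∏ j, D0 (y j * t)| ^ 2 ≤ C4 * T ^ (δ - δ')) :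
    ∫⁻ p, ‖G2 F T p‖ₑ ^ 2 ∂((volume.restrict (Icc A⁻¹ A)).prod
        (volume.restrict (Icc (fun _ : Fin k => A⁻¹) (fun _ => A)))) ≤
      ENNReal.ofReal (C1 * C4 * (volume (Icc (fun _ : Fin k => A⁻¹) (fun _ => A))).toReal *
        T ^ (1 - 2 * δ')) * ∫⁻ t in Icc T (2 * T), ‖F t‖ₑ ^ 2 := by
  have hT0 : 0 < T := by linarith
  have hVtop : volume (Icc (fun _ : Fin k => A⁻¹) (fun _ => A)) ≠ ⊤ :=
    isCompact_Icc.measure_lt_top.ne
  rw [lintegral_prod_symm _ ((mG2 hF T).enorm.pow_const 2).aemeasurable]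
  have s1 : ∀ y : Fin k → ℝ, ∫⁻ x in Icc A⁻¹ A, ‖G2 F T (x, y)‖ₑ ^ 2 ≤
      ENNReal.ofReal (C1 * T ^ (1 - 2 * δ)) *
        ∫⁻ t in Icc T (2 * T), ‖F t‖ₑ ^ 2 * ENNReal.ofReal (|∏ j, D0 (y j * t)| ^ 2) := fun y => by
    have := h1 (fun t => F t * ((∏ j, D0 (y j * t) : ℝ) : ℂ))
      (hF.mul (measurable_ofReal.comp (Finset.measurable_prod _ fun j _ =>
        meas_D0.comp (measurable_const_mul (y j)))))
    refine this.trans (le_of_eq ?_)
    congr 1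
    refine lintegral_congr fun t => ?_
    rw [enorm_mul, mul_pow, ← ofReal_norm (((∏ j, D0 (y j * t) : ℝ) : ℂ)), norm_real,
      ← ENNReal.ofReal_pow (norm_nonneg _), Real.norm_eq_abs]
  calc ∫⁻ y in Icc (fun _ : Fin k => A⁻¹) (fun _ => A), ∫⁻ x in Icc A⁻¹ A, ‖G2 F T (x, y)‖ₑ ^ 2 ≤
      ∫⁻ _y in Icc (fun _ : Fin k => A⁻¹) (fun _ => A), ENNReal.ofReal (C1 * T ^ (1 - 2 * δ)) *
        ((∫⁻ t in Icc T (2 * T), ‖F t‖ₑ ^ 2) * ENNReal.ofReal (C4 * T ^ (δ - δ'))) := by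
        refine setLIntegral_mono' measurableSet_Icc fun y hy => ?_
        refine (s1 y).trans ?_
        refine mul_le_mul' le_rfl ?_
        rw [← lintegral_mul_const' _ _ ENNReal.ofReal_ne_top]
        refine setLIntegral_mono' measurableSet_Icc fun t ht => ?_
        exact mul_le_mul' le_rfl (ENNReal.ofReal_le_ofReal (h4 t y ht hy))
    _ = ENNReal.ofReal (C1 * T ^ (1 - 2 * δ)) *
        ((∫⁻ t in Icc T (2 * T), ‖F t‖ₑ ^ 2) * ENNReal.ofReal (C4 * T ^ (δ - δ'))) *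
        ENNReal.ofReal (volume (Icc (fun _ : Fin k => A⁻¹) (fun _ => A))).toReal := by
        rw [lintegral_const, Measure.restrict_apply_univ, ENNReal.ofReal_toReal hVtop]
    _ = ENNReal.ofReal (C1 * T ^ (1 - 2 * δ)) * ENNReal.ofReal (C4 * T ^ (δ - δ')) *
        ENNReal.ofReal (volume (Icc (fun _ : Fin k => A⁻¹) (fun _ => A))).toReal *
          ∫⁻ t in Icc T (2 * T), ‖F t‖ₑ ^ 2 := by ring
    _ ≤ _ := by
      rw [← ENNReal.ofReal_mul (by positivity), ← ENNReal.ofReal_mul (by positivity)]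
      refine mul_le_mul' (ENNReal.ofReal_le_ofReal ?_) le_rfl
      have h5 : T ^ (1 - 2 * δ) * T ^ (δ - δ') ≤ T ^ (1 - 2 * δ') := by
        rw [← Real.rpow_add hT0]
        exact Real.rpow_le_rpow_of_exponent_le hT1 (by linarith)
      have h6 : 0 ≤ (volume (Icc (fun _ : Fin k => A⁻¹) (fun _ => A))).toReal :=
        ENNReal.toReal_nonneg
      have h7 : 0 ≤ C1 * C4 * (volume (Icc (fun _ : Fin k => A⁻¹) (fun _ => A))).toReal := by
        positivity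
      have h8 := mul_le_mul_of_nonneg_left h5 h7
      refine le_trans (le_of_eq ?_) h8
      ring

lemma step (hM : S_M4) {k : ℕ} {A δ δ' : ℝ} (hA : 1 ≤ A) (hd : δ' < δ) (h1 : P_DIL1 δ)
    (ih : Q k A ((δ + δ') / 2)) : Q (k + 1) A δ' := by
  obtain ⟨C1, T1, hC1, hT1, h1⟩ := h1 A hA
  obtain ⟨C2, T2, hC2, hT2, h2⟩ := ih
  have hε : 0 < δ - δ' := by linarith
  obtain ⟨C3, hC3, h3⟩ := ffms hM hε hA
  obtain ⟨C4, hC4, h4⟩ := d0k k hε hA
  have hV : 0 ≤ (volume (Icc (fun _ : Fin k => A⁻¹) (fun _ => A))).toReal :=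
    ENNReal.toReal_nonneg
  have hA0 : 0 < A := by linarith
  refine ⟨2 * (C2 * C3) + 2 * (C1 * C4 *
    (volume (Icc (fun _ : Fin k => A⁻¹) (fun _ => A))).toReal), max T1 T2, ?_,
    hT1.trans (le_max_left _ _), fun T F hT hF => ?_⟩
  · positivity
  have hTT1 : T1 ≤ T := (le_max_left _ _).trans hT
  have hTT2 : T2 ≤ T := (le_max_right _ _).trans hT
  have hT1' : 1 ≤ T := hT1.trans hTT1
  have hT0 : 0 < T := by linarith
  by_cases hfin : ∫⁻ t in Icc T (2 * T), ‖F t‖ₑ ^ 2 = ⊤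
  · rw [hfin, ENNReal.mul_top]
    · exact le_top
    · rw [Ne, ENNReal.ofReal_eq_zero, not_le]
      positivity
  have e1 := b1 (A := A) (δ := δ) (δ' := δ') hC2 hF hT0 (fun F hF => h2 T F hTT2 hF)
    (fun t ht => h3 T t hT1' ht)
  have e2 := b2 (A := A) hC1 hC4 hF hT1' hd (fun F hF => h1 T F hTT1 hF)
    (fun t y ht hy => h4 T t y hT1' ht hy)
  rw [box]
  refine (lintegral_mono_ae (key hF hT0 hA0 hfin)).trans ?_
  rw [lintegral_add_left (((mG1 hF T).enorm.pow_const 2).const_mul 2),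
    lintegral_const_mul _ ((mG1 hF T).enorm.pow_const 2),
    lintegral_const_mul _ ((mG2 hF T).enorm.pow_const 2)]
  refine (add_le_add (mul_le_mul' le_rfl e1) (mul_le_mul' le_rfl e2)).trans (le_of_eq ?_)
  have h4 : (2 : ℝ≥0∞) = ENNReal.ofReal 2 := by norm_num
  rw [h4, ← mul_assoc, ← mul_assoc, ← add_mul, ← ENNReal.ofReal_mul (by norm_num),
    ← ENNReal.ofReal_mul (by norm_num), ← ENNReal.ofReal_add (by positivity) (by positivity)]
  congr 2
  ring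

lemma main (hM : S_M4) (k : ℕ) {A : ℝ} (hA : 1 ≤ A) {δ : ℝ} (h1 : P_DIL1 δ) :
    ∀ δ' : ℝ, δ' < δ → Q k A δ' := by
  induction k with
  | zero => exact fun δ' _ => zero A δ'
  | succ k ih => exact fun δ' h => step hM hA h h1 (ih _ (by linarith))

end

end DILK

/-- DILK -/
theorem t_DILK (h : S_M4) : S_DILK := fun _ δ' _ h2 _ h4 k _ hA => DILK.main h k hA h4 δ' h2

end Pool.Agent.U460.GZ
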